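import Mathlib
import Pool.Agent.Y757.GM.Conv
import Pool.Agent.Y757.GM.Cr
import Pool.Agent.Y901.GM.Clo
import Pool.Agent.Y220.GM.Eul
import Pool.Agent.Y43.GM.Up
import Pool.Agent.Y784.GM.FB
import Pool.Agent.Y446.GM.FL
import Pool.Agent.Y510.GM.Gz
import Pool.Agent.Y872.GM.Zl
import Pool.Agent.Y758.GM.CST
import Pool.Agent.Y532.GM.Hd
import Pool.Agent.Y98.GM.Pw

/-!
# Geometric means of the zeta function of arbitrary order

For a weight `ω` (a finite measure on `0 ≤ x ≤ R`, `|y| ≤ 1` whose image on the `x`-axis has a bounded density) let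
`J_ω(t) = ∫ log |ζ(1/2 + x + i(t + y))| dω(x, y)`, so that `exp J_ω(t)` is a geometric mean of `|ζ|^m`,
`m = ω(ℝ²)`, over a right neighbourhood of the point `1/2 + it` of the critical line.  Let
`κ(ω) = ∫ max(0, 1 - 2x) dω ≤ m` and let `C(ω) = ∏_p ∫_0^1 exp (-∫ log |1 - p^{-1/2-x-iy} e^{-2πiθ}| dω) dθ`.

* (asymptotic formula) `(1/T) ∫_2^T exp J_ω(t) dt → C(ω)` if `κ(ω) < 4`; more generally if `κ(ω) < 2k` and
  `∫_1^T |ζ(1/2 + it)|^{2k} dt ≤ A_ε T^{1+ε}` for every `ε > 0`.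
* (lower bound) `liminf (1/T) ∫_2^T exp J_ω(t) dt ≥ C(ω)` for every weight, unconditionally.
* (segments) For the geometric mean `G(t)` of `|ζ|^l` over the segment from `1/2 + it` to `1/2 + h + it` the formula
  holds unconditionally for `l (1 - h) < 4` (`h ≤ 1/2`) and for `l < 16 h`: the sixth moment for `h > 1/3`, the
  eighth moment for `h > 1/2`.
* (the constant) As `h → 0+` the constant of the segment with `l = 2k` satisfies
  `(4 h e^{-3/2})^{k²} C → a_k`, the arithmetic factor of the conjectured constants of the moments of zeta.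
* (criterion) For every `k ≥ 1` the following are equivalent: the `2k`-th moment of zeta is `O(T^{1+ε})` for all
  `ε > 0`; the formula holds for all weights with `κ(ω) < 2k`; the formula holds for all weights of mass
  less than `2k`; for all `l < 2k` and `r ≤ 1` the mean of order `l` over the right half discs of radius `r` is
  `O(1)`; it is `O(T^ε)` for every `ε > 0`.
* (the Lindelöf hypothesis) holds if and only if the formula holds for all weights.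

Proof.  (i) Closeness: by mean values of `log |ζ ∏_{p ≤ N} (1 - p^{-s})|` and the nonnegativity of the mean of its
integral, `∫_1^T ∫_0^∞ |log |ζ| - ∑_{p ≤ N} ψ_p| dx dt ≤ ε T`; hence `J_ω` is close in mean to its finite part,
whose exponential moments are computed by the equidistribution of `(t log p)_{p ≤ N}`.  This gives the lower bound.
(ii) Uniform integrability: the subharmonicity of `log⁺ |ζ|` in the strip transports the mass of `ω` at the
abscissa `x` to the line `x = 0+` with the loss of the factor `1 - 2x`; Jensen's inequality with respect to the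
transported measure, whose mass is close to `κ(ω)`, the theorem of Carlson (moments off the line are `O(T)` under
the moment bound on the line) and the second moment very close to the line give
`∫ exp (c J_ω) = O(T)` for some `c > 1`.  (iii) The constant: `∏_p = exp (k² h^{-2} ∬ log ζ(1 + x + y)) ∏_p E_p(h)`
over the square of side `h`, with dominated convergence of the `E_p(h)`.  (iv) Criterion: the
area mean value inequality over the disc of radius `r` and the functional equation in its left half give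
`|ζ(1/2 + it)| ≤ C t^r exp (mean over the right half disc)`.
-/

set_option autoImplicit false

namespace Pool.Agent.Results.MP_80d0cf_nt.GeometricMeans

open MeasureTheory Filter Topology

/-- `log |ζ(1/2 + x + iu)|` -/
noncomputable def logZ (x u : ℝ) : ℝ := Real.log ‖riemannZeta (1 / 2 + x + u * Complex.I)‖

/-- weights: measures carried by `0 ≤ x ≤ R`, `|y| ≤ 1` (for some `R`) whose image on the `x`-axis has a bounded
density -/
def Weight (ω : Measure (ℝ × ℝ)) : Prop :=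
  ∃ W R : ℝ, (∀ᵐ q ∂ω, 0 ≤ q.1 ∧ q.1 ≤ R ∧ |q.2| ≤ 1) ∧ ω.map Prod.fst ≤ ENNReal.ofReal W • (volume : Measure ℝ)

/-- `κ(ω) = ∫ max(0, 1 - 2x) dω(x, y)` -/
noncomputable def kappa (ω : Measure (ℝ × ℝ)) : ℝ := ∫ q, max 0 (1 - 2 * q.1) ∂ω

/-- `J_ω(t) = ∫ log |ζ(1/2 + x + i(t + y))| dω(x, y)` -/
noncomputable def J (ω : Measure (ℝ × ℝ)) (t : ℝ) : ℝ := ∫ q, logZ q.1 (t + q.2) ∂ω

/-- `U_p(x, y, θ) = -log |1 - p^{-1/2 - x - iy} e^{-2πiθ}|` -/
noncomputable def U (p : ℕ) (x y θ : ℝ) : ℝ :=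
  -Real.log ‖1 - (p : ℂ) ^ (-(1 / 2 + x + y * Complex.I) : ℂ) * Complex.exp (-(2 * Real.pi * θ) * Complex.I)‖

/-- the local factor `E_p(ω) = ∫_0^1 exp (∫ U_p(x, y, θ) dω(x, y)) dθ` -/
noncomputable def E (ω : Measure (ℝ × ℝ)) (p : ℕ) : ℝ := ∫ θ in (0:ℝ)..1, Real.exp (∫ q, U p q.1 q.2 θ ∂ω)

/-- the Euler product `C(ω) = ∏_p E_p(ω)` -/
noncomputable def C (ω : Measure (ℝ × ℝ)) : ℝ := ∏' p : Nat.Primes, E ω p

/-- the asymptotic formula `(1/T) ∫_2^T exp (J_ω(t)) dt → C(ω)` -/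
def Formula (ω : Measure (ℝ × ℝ)) : Prop :=
  Tendsto (fun T : ℝ => 1 / T * ∫ t in (2:ℝ)..T, Real.exp (J ω t)) atTop (𝓝 (C ω))

/-- `G_{l,h}(t) = exp ((l/h) ∫_0^h log |ζ(1/2 + x + it)| dx)`, the geometric mean of `|ζ|^l` over the segment from
`1/2 + it` to `1/2 + h + it` -/
noncomputable def G (l h t : ℝ) : ℝ := Real.exp (l / h * ∫ x in (0:ℝ)..h, logZ x t)

/-- the Euler product of the segment, `∏_p ∫_0^1 exp ((l/h) ∫_0^h U_p(x, 0, θ) dx) dθ` -/
noncomputable def CG (l h : ℝ) : ℝ :=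
  ∏' p : Nat.Primes, ∫ θ in (0:ℝ)..1, Real.exp (l / h * ∫ x in (0:ℝ)..h, U p x 0 θ)

/-- the arithmetic factor `a_k = ∏_p (1 - 1/p)^{k²} ∑_m binom(m + k - 1, m)² p^{-m}` -/
noncomputable def a (k : ℕ) : ℝ :=
  ∏' p : Nat.Primes, (1 - 1 / (p : ℝ)) ^ (k ^ 2) * ∑' m : ℕ, ((m + k - 1).choose m : ℝ) ^ 2 / (p : ℝ) ^ m

/-- `H_r(t)`: the mean of `log |ζ|` over the right half of the disc with centre `1/2 + it` and radius `r` -/
noncomputable def H (r t : ℝ) : ℝ :=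
  2 / (Real.pi * r ^ 2) * ∫ q in {q : ℝ × ℝ | 0 < q.1 ∧ q.1 ^ 2 + q.2 ^ 2 ≤ r ^ 2}, logZ q.1 (t + q.2)

/-- `∫_1^T |ζ(1/2 + it)|^{2k} dt = O(T^{1 + ε})` for every `ε > 0` -/
def Moment (k : ℕ) : Prop := ∀ ε : ℝ, 0 < ε → ∃ A : ℝ, ∀ T : ℝ, 1 ≤ T →
  ∫ t in (1:ℝ)..T, ‖riemannZeta (1 / 2 + t * Complex.I)‖ ^ (2 * k) ≤ A * T ^ (1 + ε)

/-- the Lindelöf hypothesis -/
def Lindelof : Prop := ∀ ε : ℝ, 0 < ε → ∃ C : ℝ, ∀ t : ℝ,
  ‖riemannZeta (1 / 2 + t * Complex.I)‖ ≤ C * (1 + |t|) ^ ε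

lemma J_eq (ω : Measure (ℝ × ℝ)) (t : ℝ) : J ω t = Y757.GM.Jw ω t := rfl

lemma E_eq (ω : Measure (ℝ × ℝ)) (p : Nat.Primes) : E ω p = Y757.GM.facw ω p := by
  unfold E Y757.GM.facw Y757.GM.Lw U
  simp only [Y757.GM.U_eq p.2.two_le]

lemma C_eq (ω : Measure (ℝ × ℝ)) : C ω = Y757.GM.Cw ω := by
  unfold C Y757.GM.Cw
  exact tprod_congr fun p => E_eq ω p

lemma formula_iff (ω : Measure (ℝ × ℝ)) : Formula ω ↔ Y757.GM.Form ω := by
  unfold Formula Y757.GM.Form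
  simp only [J_eq, C_eq]

lemma weight_iff (ω : Measure (ℝ × ℝ)) : Weight ω ↔ ∃ W R : ℝ, Y757.GM.Wt ω W R := by
  constructor
  · rintro ⟨W, R, h1, h2⟩
    exact ⟨_, _, Y757.GM.wt_of_weight h1 h2⟩
  · rintro ⟨W, R, h⟩
    exact ⟨W, R, Y757.GM.weight_of_wt h⟩

lemma H_eq (r t : ℝ) : H r t = Y757.GM.Jw (Y757.GM.hd r) t := (Y757.GM.hd_Jw t).symm

lemma G_eq {l h : ℝ} (hl : 0 < l) (hh : 0 < h) (t : ℝ) : G l h t = Real.exp (Y757.GM.Jw (Y757.GM.seg l h) t) := by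
  rw [Y757.GM.seg_Jw hl.le hh]
  rfl

lemma CG_eq {l h : ℝ} (hl : 0 < l) (hh : 0 < h) : CG l h = Y757.GM.Cw (Y757.GM.seg l h) := by
  unfold CG Y757.GM.Cw
  refine tprod_congr fun p => ?_
  unfold Y757.GM.facw
  simp only [Y757.GM.seg_Lw hl.le hh]
  unfold U
  simp only [Y757.GM.U_eq0 p.2.two_le]

lemma CG_eq2 {k : ℕ} (h : ℝ) : CG (2 * k) h = ∏' p : Nat.Primes, Y757.GM.Fp k p h := by
  unfold CG Y757.GM.Fp
  refine tprod_congr fun p => ?_
  unfold U
  simp only [Y757.GM.U_eq0 p.2.two_le]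

/-- the ingredients -/
lemma ing : Y757.GM.Ing :=
  ⟨Y901.GM.t_clo, Y220.GM.t_eul, Y43.GM.t_up, Y532.GM.t_hd, Y98.GM.t_pw, Y757.GM.t_cr⟩

theorem result :
    -- the integrals and the products are well defined
    (∀ ω : Measure (ℝ × ℝ), Weight ω → ∀ᵐ t ∂(volume.restrict (Set.Ici (2:ℝ))),
      Integrable (fun q : ℝ × ℝ => logZ q.1 (t + q.2)) ω) ∧
    (∀ ω : Measure (ℝ × ℝ), Weight ω → ∀ T : ℝ, 2 ≤ T →
      IntervalIntegrable (fun t => Real.exp (J ω t)) volume 2 T) ∧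
    (∀ ω : Measure (ℝ × ℝ), Weight ω → Multipliable fun p : Nat.Primes => E ω p) ∧
    (∀ k : ℕ, 1 ≤ k → Multipliable fun p : Nat.Primes =>
      (1 - 1 / (p : ℝ)) ^ (k ^ 2) * ∑' m : ℕ, ((m + k - 1).choose m : ℝ) ^ 2 / (p : ℝ) ^ m) ∧
    -- the formula for `κ(ω) < 4` and the lower bound for all weights, unconditionally
    (∀ ω : Measure (ℝ × ℝ), Weight ω → kappa ω < 4 → Formula ω) ∧
    (∀ ω : Measure (ℝ × ℝ), Weight ω → ∀ ε : ℝ, 0 < ε → ∀ᶠ T : ℝ in atTop,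
      C ω - ε ≤ 1 / T * ∫ t in (2:ℝ)..T, Real.exp (J ω t)) ∧
    -- the formula from moments of zeta
    (∀ k : ℕ, 1 ≤ k → Moment k → ∀ ω : Measure (ℝ × ℝ), Weight ω → kappa ω < 2 * k → Formula ω) ∧
    -- geometric means over segments
    (∀ l h : ℝ, 0 < l → 0 < h → (h ≤ 1 / 2 ∧ l * (1 - h) < 4 ∨ l < 16 * h) →
      Tendsto (fun T : ℝ => 1 / T * ∫ t in (2:ℝ)..T, G l h t) atTop (𝓝 (CG l h))) ∧
    (∀ l h : ℝ, 0 < l → 0 < h → ∀ ε : ℝ, 0 < ε → ∀ᶠ T : ℝ in atTop,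
      CG l h - ε ≤ 1 / T * ∫ t in (2:ℝ)..T, G l h t) ∧
    (∀ k : ℕ, 1 ≤ k → Moment k → ∀ l h : ℝ, 0 < l → 0 < h →
      (h ≤ 1 / 2 ∧ l * (1 - h) < 2 * k ∨ l < 8 * k * h) →
      Tendsto (fun T : ℝ => 1 / T * ∫ t in (2:ℝ)..T, G l h t) atTop (𝓝 (CG l h))) ∧
    -- the constant as the segment shrinks to the critical line
    (∀ k : ℕ, 1 ≤ k → Tendsto (fun h : ℝ => (4 * h * Real.exp (-(3 / 2))) ^ (k ^ 2) * CG (2 * k) h)
      (𝓝[>] 0) (𝓝 (a k))) ∧
    -- the criterion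
    (∀ k : ℕ, 1 ≤ k → List.TFAE [Moment k,
      ∀ ω : Measure (ℝ × ℝ), Weight ω → kappa ω < 2 * k → Formula ω,
      ∀ ω : Measure (ℝ × ℝ), Weight ω → ω Set.univ < 2 * k → Formula ω,
      ∀ l r : ℝ, 0 < l → l < 2 * k → 0 < r → r ≤ 1 → ∃ A : ℝ, ∀ T : ℝ, 2 ≤ T →
        ∫ t in (2:ℝ)..T, Real.exp (l * H r t) ≤ A * T,
      ∀ l r ε : ℝ, 0 < l → l < 2 * k → 0 < r → r ≤ 1 → 0 < ε → ∃ A : ℝ, ∀ T : ℝ, 2 ≤ T →
        ∫ t in (2:ℝ)..T, Real.exp (l * H r t) ≤ A * T ^ (1 + ε)]) ∧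
    -- the Lindelöf hypothesis
    (Lindelof ↔ ∀ ω : Measure (ℝ × ℝ), Weight ω → Formula ω) := by
  have hw : ∀ P : Measure (ℝ × ℝ) → Prop, (∀ ω, Weight ω → P ω) ↔ ∀ (ω : Measure (ℝ × ℝ)) (W R : ℝ),
      Y757.GM.Wt ω W R → P ω := by
    intro P
    constructor
    · intro h ω W R hW
      exact h ω ((weight_iff ω).2 ⟨W, R, hW⟩)
    · intro h ω hω
      obtain ⟨W, R, hW⟩ := (weight_iff ω).1 hω
      exact h ω W R hW
  have I := ing
  refine ⟨?_, ?_, ?_,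
    fun k hk => (Y758.GM.t_CST Y784.GM.t_FB Y446.GM.t_FL Y510.GM.t_GZ Y872.GM.t_ZL k hk).1,
    ?_, ?_, ?_, ?_, ?_, ?_, ?_, ?_, ?_⟩
  · rw [hw]
    intro ω W R h
    exact Y757.GM.ae_int I.clo h
  · rw [hw]
    intro ω W R h T hT
    have := Y757.GM.expJ_ii I.up h zero_le_one hT
    simpa only [one_mul, ← J_eq] using this
  · rw [hw]
    intro ω W R h
    have := (I.eul ω W R h).2.2.2.1
    simpa only [← E_eq] using this
  · intro ω hω hκ
    obtain ⟨W, R, h⟩ := (weight_iff ω).1 hω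
    refine (formula_iff ω).2 (Y757.GM.form_of_mom I (k := 2) (by norm_num) Y757.EM.hyp2 h ?_)
    have : kappa ω = Y757.GM.kap ω := rfl
    rw [← this]
    norm_num
    exact hκ
  · rw [hw]
    intro ω W R h ε hε
    rw [C_eq]
    exact Y757.GM.lower_w I.clo I.eul I.up h hε
  · intro k hk hm ω hω hκ
    obtain ⟨W, R, h⟩ := (weight_iff ω).1 hω
    exact (formula_iff ω).2 (Y757.GM.form_of_mom I hk (Y757.GM.mom_hyp hm) h hκ)
  · intro l h hl hh hc
    have h1 := Y757.GM.seg_form I (k := 2) (by norm_num) Y757.EM.hyp2 hl hh (by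
      rcases hc with ⟨h1, h2⟩ | h1
      · left; exact ⟨h1, by push_cast; linarith⟩
      · right; push_cast; linarith)
    unfold Y757.GM.Form at h1
    rw [← CG_eq hl hh] at h1
    simpa only [← G_eq hl hh] using h1
  · intro l h hl hh ε hε
    have h1 := Y757.GM.lower_w I.clo I.eul I.up (Y757.GM.seg_wt hl.le hh) hε
    rw [← CG_eq hl hh] at h1
    simpa only [← G_eq hl hh] using h1
  · intro k hk hm l h hl hh hc
    have h1 := Y757.GM.seg_form I hk (Y757.GM.mom_hyp hm) hl hh hc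
    unfold Y757.GM.Form at h1
    rw [← CG_eq hl hh] at h1
    simpa only [← G_eq hl hh] using h1
  · intro k hk
    have h1 := (Y758.GM.t_CST Y784.GM.t_FB Y446.GM.t_FL Y510.GM.t_GZ Y872.GM.t_ZL k hk).2
    have e : a k = ∏' p : Nat.Primes, Y757.GM.Bp k p := rfl
    rw [← e] at h1
    simpa only [← CG_eq2] using h1
  · intro k hk
    have h1 := Y757.GM.crit I hk
    have e2 : (∀ ω : Measure (ℝ × ℝ), Weight ω → kappa ω < 2 * k → Formula ω) ↔
        ∀ (ω : Measure (ℝ × ℝ)) (W R : ℝ), Y757.GM.Wt ω W R → Y757.GM.kap ω < 2 * k → Y757.GM.Form ω := by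
      rw [hw]
      simp only [formula_iff]
      rfl
    have e3 : (∀ ω : Measure (ℝ × ℝ), Weight ω → ω Set.univ < 2 * k → Formula ω) ↔
        ∀ (ω : Measure (ℝ × ℝ)) (W R : ℝ), Y757.GM.Wt ω W R → ω Set.univ < 2 * k → Y757.GM.Form ω := by
      rw [hw]
      simp only [formula_iff]
    rw [e2, e3]
    simp only [H_eq]
    exact h1
  · have h1 := Y757.GM.lindelof I
    have e2 : (∀ ω : Measure (ℝ × ℝ), Weight ω → Formula ω) ↔
        ∀ (ω : Measure (ℝ × ℝ)) (W R : ℝ), Y757.GM.Wt ω W R → Y757.GM.Form ω := by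
      rw [hw]
      simp only [formula_iff]
    rw [e2, ← h1]
    unfold Lindelof Y757.LS.Exponent
    simp only [zero_add]
    rfl

end Pool.Agent.Results.MP_80d0cf_nt.GeometricMeans
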